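import Pool.Agent.H.MP_10e588_co.A

namespace Pool.Agent.Results.MP_10e588_co.Empty

open Pool.Agent.H.MP_10e588_co Sum

variable {V V' : Type} [DecidableEq V] [DecidableEq V']

/-- The framed quiver: one frozen vertex `inr i` and one arrow `inl i → inr i` for each `i`. -/
def frame (B : V → V → ℤ) : V ⊕ V → V ⊕ V → ℤ
  | inl i, inl j => B i j
  | inl i, inr j => if i = j then 1 else 0
  | inr i, inl j => if i = j then -1 else 0
  | inr _, inr _ => 0

/-- No arrow from a frozen vertex to `j`. -/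
def Green (X : V ⊕ V → V ⊕ V → ℤ) (j : V) : Prop := ∀ f, X (inr f) (inl j) ≤ 0

def MGS : (V ⊕ V → V ⊕ V → ℤ) → List V → Prop
  | X, [] => ∀ j, ¬ Green X j
  | X, k :: l => Green X k ∧ MGS (mu X (inl k)) l

def Mut (Q P : V → V → ℤ) : Prop := Relation.ReflTransGen (fun A B => ∃ k, B = mu A k) Q P

/-- The vertices of `Ψ(Q)`: relabelling classes of the quivers in the mutation class of `Q` that
have a maximal green sequence. -/
def Psi (Q : V → V → ℤ) : Set (Set (V → V → ℤ)) := {S | ∃ P, Mut Q P ∧ (∃ l, MGS (frame P) l) ∧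
  S = Set.range fun (σ : Equiv.Perm V) i j => P (σ i) (σ j)}

/-- The direct sum with one more arrow `a → b` for each entry `(a, b)` of the list. -/
def dsum (Q : V → V → ℤ) (Q' : V' → V' → ℤ) (L : List (V × V')) : V ⊕ V' → V ⊕ V' → ℤ
  | inl i, inl j => Q i j
  | inl i, inr j => L.count (i, j)
  | inr j, inl i => -L.count (i, j)
  | inr i, inr j => Q' i j

theorem no {S : List (V → V → ℤ)} (hK : ∀ B, K S B → (∃ r, W B r) ∧ ∀ m, K S (mu B m)) :
    ∀ (l : List V) (X : V ⊕ V → V ⊕ V → ℤ) (s : V), K S (fun i j => X (inl i) (inl j)) →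
      Inv (fun i j => X (inl i) (inl j)) (fun i f => -X (inr f) (inl i)) s → ¬ MGS X l
  | [], X, s, _, ⟨_, _, _, _, _, ⟨j, a⟩, h⟩, m => m j fun f => neg_nonneg.1 ((h j a).1 f)
  | k :: l, X, s, a, h, m => by
    have e : (fun i j => mu X (inl k) (inl i) (inl j)) = mu (fun i j => X (inl i) (inl j)) k := by
      funext i j
      simp [mu]
    have b := (hK _ a).2 k
    obtain ⟨r, w⟩ := (hK _ b).1
    refine no hK l _ r (e ▸ b) (e ▸ h.step (fun f => neg_nonneg.2 (m.1 f)) w fun i f => ?_) m.2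
    have := h.1.1 k i
    have := m.1 f
    by_cases c : i = k <;> simp_all [mu, add_comm, mul_comm]

theorem main {S : List (V → V → ℤ)} (h4 : ∀ a b c d e : V, a = b ∨ a = c ∨ a = d ∨ a = e ∨ b = c ∨
      b = d ∨ b = e ∨ c = d ∨ c = e ∨ d = e) (hS : ∀ B ∈ S, (∃ r, W B r) ∧ ∀ k, mu B k ∈ S ∨
      ∃ r a b, W B r ∧ k ≠ r ∧ 0 < B a k ∧ 0 < B k b) {Q P : V → V → ℤ} (q : K S Q) (h : Mut Q P)
    {l : List V} (m : MGS (frame P) l) : P ∈ S ∧ ¬ Cyc P := by
  have p : K S P := by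
    clear m
    induction h with
    | refl => exact q
    | tail _ b ih =>
      obtain ⟨k, rfl⟩ := b
      exact (ih.step h4 hS).2.2 k
  obtain ⟨⟨r, w⟩, u, -⟩ := p.step h4 hS
  have : ¬ Cyc P := fun ⟨x, y, z, a, b, c⟩ => by
    have g : ∀ i, G (fun i f => -frame P (inr f) (inl i)) i := fun i f => by
      simp only [frame]
      split_ifs <;> simp
    refine no (fun B a => ⟨(a.step h4 hS).1, (a.step h4 hS).2.2⟩) l _ r p ⟨w, fun i => ⟨i, by
      simp [frame]⟩, fun i _ a => absurd (g i) a, fun i _ a => absurd (g i) a, {x, y, z}, by simp,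
      ?_⟩ m
    rintro j (rfl | rfl | rfl)
    exacts [⟨g _, z, c, by simp⟩, ⟨g _, x, a, by simp⟩, ⟨g _, y, b, by simp⟩]
  exact ⟨u.resolve_right this, this⟩

instance [Fintype V] (X : V ⊕ V → V ⊕ V → ℤ) (j : V) : Decidable (Green X j) := by
  unfold Green; infer_instance

def M (A : Fin 4 → Fin 4 → ℤ) (i j : Fin 3 ⊕ Fin 1) : ℤ := A (finSumFinEquiv i) (finSumFinEquiv j)

theorem result : ∃ (Q : Fin 3 → Fin 3 → ℤ) (Q' : Fin 1 → Fin 1 → ℤ) (L : List (Fin 3 × Fin 1)),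
    (∀ i j, Q j i = -Q i j) ∧ (∀ i j, Q' j i = -Q' i j) ∧ (Psi Q).Finite ∧ (Psi Q).Nonempty ∧
      (Psi Q').Finite ∧ (Psi Q').Nonempty ∧ Psi (dsum Q Q' L) = ∅ := by
  let A : Fin 3 → Fin 3 → ℤ := ![![0, -2, -2], ![2, 0, -2], ![2, 2, 0]]
  refine ⟨mu A 1, 0, [(0, 0), (0, 0), (1, 0), (1, 0), (2, 0), (2, 0)], by decide +kernel, by simp,
    ?_, ⟨_, A, .single ⟨1, (mu_mu _ _).symm⟩, ⟨[2, 1, 0], ?_⟩, rfl⟩, ?_,
    ⟨_, 0, .refl, ⟨[0], ?_⟩, rfl⟩, Set.eq_empty_of_forall_notMem ?_⟩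
  · refine (([A, mu A 2, mu A 0].finite_toSet).image fun P => Set.range
      fun (σ : Equiv.Perm (Fin 3)) i j => P (σ i) (σ j)).subset ?_
    rintro _ ⟨P, a, ⟨l, b⟩, rfl⟩
    exact ⟨P, (main (by decide +kernel) (by decide +kernel) (.up (s := 0) (a := 2) (b := 0)
      (.core (by simp)) (by decide +kernel) (by decide) (by decide) (by decide)) a b).1, rfl⟩
  · simp only [MGS]
    decide +kernel
  · refine (Set.finite_singleton {0}).subset ?_
    rintro _ ⟨P, a, -, rfl⟩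
    have : P = 0 := by
      induction a with
      | refl => rfl
      | tail _ b ih =>
        obtain ⟨k, rfl⟩ := b
        funext i j
        simp [mu, ih]
    simp [this]
    rfl
  · simp only [MGS]
    decide +kernel
  · rintro _ ⟨P, a, ⟨l, b⟩, -⟩
    have := main (S := List.map M [![![0, 2, -6, 2], ![-2, 0, 2, 2], ![6, -2, 0, 2], ![-2, -2, -2, 0]],
      ![![0, -2, -2, 6], ![2, 0, -2, -2], ![2, 2, 0, 2], ![-6, 2, -2, 0]],
      ![![0, 2, -6, -2], ![-2, 0, 2, -2], ![6, -2, 0, -2], ![2, 2, 2, 0]],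
      ![![0, -2, 2, 6], ![2, 0, 2, -2], ![-2, -2, 0, -2], ![-6, 2, 2, 0]],
      ![![0, -2, -2, -2], ![2, 0, -2, 2], ![2, 2, 0, -6], ![2, -2, 6, 0]],
      ![![0, 2, 2, 2], ![-2, 0, -2, 2], ![-2, 2, 0, -6], ![-2, -2, 6, 0]]])
      (by set_option synthInstance.maxSize 4000 in decide +kernel)
      (by set_option synthInstance.maxSize 4000 in decide +kernel) (.core (by decide +kernel)) a b
    refine this.2 ((?_ : ∀ B ∈ _, Cyc B) P this.1)
    unfold Cyc
    decide +kernel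

end Pool.Agent.Results.MP_10e588_co.Empty
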